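import Pool.Agent.Lib.MP_140312_al.Defs

/-!
# Definitions for package B (trees, lines, subsets of a product of two trees)
-/

set_option autoImplicit false

namespace Pool.Agent.P140

open Pool.Agent.Lib.MP_140312_al

variable {V V₁ V₂ : Type*}

/-- `m` is a median of `x, y, z`. -/
def IsMed (T : SimpleGraph V) (x y z m : V) : Prop :=
  T.dist x m + T.dist m y = T.dist x y ∧ T.dist y m + T.dist m z = T.dist y z ∧
    T.dist x m + T.dist m z = T.dist x z

/-- A type preserving action on a tree. -/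
structure TreeAct (G : Type*) [Group G] [MulAction G V] (T : SimpleGraph V) : Prop where
  tree : T.IsTree
  adj_iff : ∀ (g : G) (x y : V), T.Adj (g • x) (g • y) ↔ T.Adj x y
  even : ∀ (g : G) (x : V), Even (T.dist x (g • x))

/-- A geodesic line. -/
def IsLine (T : SimpleGraph V) (l : ℤ → V) : Prop := ∀ i j : ℤ, T.dist (l i) (l j) = (i - j).natAbs

/-- The line `l` is an axis of `c` (translation by `τ`), and contains exactly the points of minimal
displacement. -/
structure IsAxis {G : Type*} [Group G] [MulAction G V] (T : SimpleGraph V) (c : G) (l : ℤ → V)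
    (τ : ℤ) : Prop where
  line : IsLine T l
  pos : 0 < τ
  shift : ∀ i, c • l i = l (i + τ)
  mem_iff : ∀ x, (∃ i, l i = x) ↔ T.dist x (c • x) = τ.natAbs

/-- The graph induced by the product of two trees on `S`. -/
def SG (T₁ : SimpleGraph V₁) (T₂ : SimpleGraph V₂) (S : Set (V₁ × V₂)) : SimpleGraph S where
  Adj x y := (x.1.1 = y.1.1 ∧ T₂.Adj x.1.2 y.1.2) ∨ (x.1.2 = y.1.2 ∧ T₁.Adj x.1.1 y.1.1)
  symm := ⟨by
    rintro x y (⟨h, h'⟩ | ⟨h, h'⟩)
    · exact Or.inl ⟨h.symm, h'.symm⟩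
    · exact Or.inr ⟨h.symm, h'.symm⟩⟩
  loopless := ⟨by
    rintro x (⟨-, h⟩ | ⟨-, h⟩)
    · exact T₂.loopless.irrefl _ h
    · exact T₁.loopless.irrefl _ h⟩

/-- Geodesically convex sets of vertices. -/
def Conv (T : SimpleGraph V) (A : Set V) : Prop :=
  ∀ x ∈ A, ∀ y ∈ A, ∀ z, T.dist x z + T.dist z y = T.dist x y → z ∈ A

/-- `S` is a connected subset of the product of the trees `T₁`, `T₂` with convex rows and
columns. -/
structure HV (T₁ : SimpleGraph V₁) (T₂ : SimpleGraph V₂) (S : Set (V₁ × V₂)) : Prop where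
  tree₁ : T₁.IsTree
  tree₂ : T₂.IsTree
  conn : (SG T₁ T₂ S).Connected
  row : ∀ a, Conv T₂ {b | (a, b) ∈ S}
  col : ∀ b, Conv T₁ {a | (a, b) ∈ S}

/-- A type preserving proper action on a locally finite HV set. -/
structure HVAct (G : Type*) [Group G] [MulAction G V₁] [MulAction G V₂] (T₁ : SimpleGraph V₁)
    (T₂ : SimpleGraph V₂) (S : Set (V₁ × V₂)) : Prop where
  hv : HV T₁ T₂ S
  act₁ : TreeAct G T₁
  act₂ : TreeAct G T₂
  inv : ∀ (g : G) (x : V₁ × V₂), x ∈ S → (g • x.1, g • x.2) ∈ S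
  stab : ∀ x ∈ S, {g : G | g • x.1 = x.1 ∧ g • x.2 = x.2}.Finite
  locFin₂ : ∀ x ∈ S, {b | T₂.Adj x.2 b ∧ (x.1, b) ∈ S}.Finite
  locFin₁ : ∀ x ∈ S, {a | T₁.Adj x.1 a ∧ (a, x.2) ∈ S}.Finite

end Pool.Agent.P140
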