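import Pool.Agent.Lib.MP_140312_al_SG.Tree
import Pool.Agent.Lib.MP_140312_al_h22.BDefs

/-!
# Automorphisms of trees: axes
-/

set_option autoImplicit false

namespace Pool.Agent.P140

open SimpleGraph Pool.Agent.Lib.MP_140312_al_SG

variable {V : Type*} {T : SimpleGraph V}

/-! ### Metric facts -/

/-- Points on geodesics. -/
theorem exists_geod (hc : T.Connected) (x : V) : ∀ (n : ℕ) (y : V), T.dist x y = n → ∀ k ≤ n,
    ∃ p, T.dist x p = k ∧ T.dist p y + k = n := by
  intro n
  induction n with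
  | zero =>
    intro y hy k hk
    have hk0 : k = 0 := by omega
    subst hk0
    exact ⟨y, hy, by simp⟩
  | succ n ih =>
    intro y hy k hk
    rcases Nat.lt_or_ge n k with h | h
    · have hkn : k = n + 1 := by omega
      subst hkn
      exact ⟨y, hy, by simp⟩
    · have hne : x ≠ y := by
        rintro rfl
        simp at hy
      obtain ⟨y', hadj, hy'⟩ := exists_closer hc hne
      obtain ⟨p, hp1, hp2⟩ := ih y' (by omega) k h
      refine ⟨p, hp1, ?_⟩
      have t1 : T.dist p y ≤ T.dist p y' + T.dist y' y := hc.dist_triangle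
      have t2 : T.dist x y ≤ T.dist x p + T.dist p y := hc.dist_triangle
      have c1 : T.dist y' y = 1 := dist_eq_one_iff_adj.2 hadj.symm
      omega

/-- Two points of a geodesic. -/
theorem dist_of_between (hT : T.IsTree) {x y m n : V} (hm : T.dist x m + T.dist m y = T.dist x y)
    (hn : T.dist x n + T.dist n y = T.dist x y) (h : T.dist x m ≤ T.dist x n) :
    T.dist x m + T.dist m n = T.dist x n := by
  obtain ⟨p, hp1, hp2⟩ := exists_geod hT.connected x (T.dist x n) n rfl (T.dist x m) h
  have t1 : T.dist p y ≤ T.dist p n + T.dist n y := hT.connected.dist_triangle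
  have t2 : T.dist x y ≤ T.dist x p + T.dist p y := hT.connected.dist_triangle
  have hpm : p = m := tree_point_unique hT (a := x) (b := y) (by omega) hm (by omega)
  subst hpm
  omega

/-- The four point condition. -/
theorem four_point (hT : T.IsTree) (x y z w : V) :
    T.dist x y + T.dist z w ≤ max (T.dist x z + T.dist y w) (T.dist x w + T.dist y z) := by
  obtain ⟨m, h1, h2, h3⟩ := tree_median hT x y z
  obtain ⟨n, k1, k2, k3⟩ := tree_median hT x y w
  have t1 : T.dist z w ≤ T.dist z m + T.dist m w := hT.connected.dist_triangle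
  have t2 : T.dist m w ≤ T.dist m n + T.dist n w := hT.connected.dist_triangle
  have c1 : T.dist m z = T.dist z m := SimpleGraph.dist_comm
  have c2 : T.dist m y = T.dist y m := SimpleGraph.dist_comm
  have c3 : T.dist n y = T.dist y n := SimpleGraph.dist_comm
  have c4 : T.dist m n = T.dist n m := SimpleGraph.dist_comm
  rcases le_total (T.dist x m) (T.dist x n) with h | h
  · have := dist_of_between hT h1 k1 h
    refine le_max_of_le_right ?_
    omega
  · have := dist_of_between hT k1 h1 h
    refine le_max_of_le_left ?_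
    omega

/-! ### Actions -/

variable {G : Type*} [Group G] [MulAction G V]

theorem dist_smul_le' (hc : T.Connected) (hadj : ∀ (g : G) (x y : V), T.Adj (g • x) (g • y) ↔ T.Adj x y)
    (g : G) (x y : V) : T.dist (g • x) (g • y) ≤ T.dist x y := by
  obtain ⟨p, hp⟩ := hc.exists_walk_length_eq_dist x y
  let φ : T →g T := ⟨fun v => g • v, fun {a b} h => (hadj g a b).2 h⟩
  have := SimpleGraph.dist_le (p.map φ)
  rw [SimpleGraph.Walk.length_map, hp] at this
  exact this

theorem TreeAct.dist_smul (h : TreeAct G T) (g : G) (x y : V) :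
    T.dist (g • x) (g • y) = T.dist x y := by
  refine le_antisymm (dist_smul_le' h.tree.connected h.adj_iff g x y) ?_
  have := dist_smul_le' h.tree.connected h.adj_iff g⁻¹ (g • x) (g • y)
  simpa using this

/-- The displacement of the powers of `c`. -/
theorem TreeAct.dist_pow (h : TreeAct G T) {c : G} {y : V} (hpos : 0 < T.dist y (c • y))
    (h2 : T.dist y (c • c • y) = 2 * T.dist y (c • y)) :
    ∀ n : ℕ, T.dist y (c ^ n • y) = n * T.dist y (c • y) := by
  set τ := T.dist y (c • y) with hτ
  have hc := h.tree.connected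
  have key : ∀ n : ℕ, T.dist y (c ^ n • y) = n * τ ∧ T.dist y (c ^ (n + 1) • y) = (n + 1 : ℕ) * τ := by
    intro n
    induction n with
    | zero => simp [hτ]
    | succ n ih =>
      refine ⟨ih.2, ?_⟩
      rcases Nat.eq_zero_or_pos n with hn | hn
      · subst hn
        have e : c ^ (0 + 1 + 1) • y = c • c • y := by
          rw [pow_succ', mul_smul]
          simp
        rw [e, h2]
      · have e1 : c ^ (n + 1) • y = c • c ^ n • y := by rw [pow_succ', mul_smul]
        have e2 : c ^ (n + 1 + 1) • y = c • c ^ (n + 1) • y := by rw [pow_succ', mul_smul]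
        have f := four_point h.tree y (c ^ (n + 1) • y) (c • y) (c ^ (n + 1 + 1) • y)
        have d1 : T.dist (c • y) (c ^ (n + 1 + 1) • y) = (n + 1 : ℕ) * τ := by
          rw [e2, h.dist_smul, ih.2]
        have d2 : T.dist (c ^ (n + 1) • y) (c ^ (n + 1 + 1) • y) = τ := by
          have : c ^ (n + 1 + 1) • y = c ^ (n + 1) • c • y := by
            rw [pow_succ, mul_smul]
          rw [this, h.dist_smul]
        have d3 : T.dist (c ^ (n + 1) • y) (c • y) = n * τ := by
          rw [e1, h.dist_smul, SimpleGraph.dist_comm, ih.1]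
        have t : T.dist y (c ^ (n + 1 + 1) • y) ≤
            T.dist y (c ^ (n + 1) • y) + T.dist (c ^ (n + 1) • y) (c ^ (n + 1 + 1) • y) :=
          hc.dist_triangle
        rw [ih.2, d2] at t
        rw [ih.2, d1, d2, d3, ← hτ] at f
        have a1 : ((n + 1 + 1 : ℕ)) * τ = n * τ + τ + τ := by ring
        have a2 : ((n + 1 : ℕ)) * τ = n * τ + τ := by ring
        have a3 : τ ≤ n * τ := Nat.le_mul_of_pos_left τ hn
        rw [a2] at f t
        rw [a1]
        rcases le_max_iff.1 f with f | f <;> omega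
  exact fun n => (key n).1

/-- The displacement of integer powers. -/
theorem TreeAct.dist_zpow (h : TreeAct G T) {c : G} {y : V} (hpos : 0 < T.dist y (c • y))
    (h2 : T.dist y (c • c • y) = 2 * T.dist y (c • y)) {m n : ℤ} (hmn : m ≤ n) :
    (T.dist (c ^ m • y) (c ^ n • y) : ℤ) = (n - m) * T.dist y (c • y) := by
  obtain ⟨k, hk⟩ := Int.eq_ofNat_of_zero_le (sub_nonneg.2 hmn)
  have hn : n = m + k := by omega
  subst hn
  have e : c ^ (m + (k : ℤ)) • y = c ^ m • c ^ k • y := by
    rw [zpow_add, mul_smul, zpow_natCast]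
  rw [e, h.dist_smul, h.dist_pow hpos h2]
  push_cast
  ring

/-! ### Lines -/

theorem IsLine.injective {l : ℤ → V} (hl : IsLine T l) {i j : ℤ}
    (h : l i = l j) : i = j := by
  have := hl i j
  rw [h, SimpleGraph.dist_self] at this
  omega

/-- A point which is at distance at least `T.dist x (l i)` from all points of the line. -/
theorem IsLine.dist_of_closest (hT : T.IsTree) {l : ℤ → V} (hl : IsLine T l) {x : V} {i : ℤ}
    (hi : ∀ j, T.dist x (l i) ≤ T.dist x (l j)) (j : ℤ) :
    T.dist x (l j) = T.dist x (l i) + (i - j).natAbs := by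
  by_contra hcon
  have hne : T.dist x (l i) + T.dist (l i) (l j) ≠ T.dist x (l j) := by
    rw [hl i j]
    omega
  obtain ⟨s, hs, hs1, hs2⟩ := tree_common_closer hT hne
  have c1 : T.dist (l i) s = 1 := dist_eq_one_iff_adj.2 hs
  have c2 : T.dist (l j) s = T.dist s (l j) := SimpleGraph.dist_comm
  have c3 : T.dist (l j) (l i) = (j - i).natAbs := hl j i
  have c4 : T.dist (l i) (l j) = (i - j).natAbs := hl i j
  have hij : i ≠ j := by
    rintro rfl
    simp at hcon
  obtain ⟨i', hi', hi''⟩ : ∃ i', (i - i').natAbs = 1 ∧ (i' - j).natAbs + 1 = (i - j).natAbs := by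
    rcases lt_or_gt_of_ne hij with h | h
    · exact ⟨i + 1, by omega, by omega⟩
    · exact ⟨i - 1, by omega, by omega⟩
  have d1 := hl i i'
  have d2 := hl i' j
  have : s = l i' := tree_point_unique hT (a := l i) (b := l j) (by omega) (by omega) (by omega)
  subst this
  have := hi i'
  omega

theorem IsLine.exists_closest {l : ℤ → V} (x : V) : ∃ i, ∀ j, T.dist x (l i) ≤ T.dist x (l j) := by
  classical
  have h : ∃ n, ∃ i, T.dist x (l i) = n := ⟨_, 0, rfl⟩
  obtain ⟨i, hi⟩ := Nat.find_spec h
  exact ⟨i, fun j => by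
    rw [hi]
    exact Nat.find_min' h ⟨j, rfl⟩⟩

/-- The displacement of an arbitrary point. -/
theorem TreeAct.displacement (h : TreeAct G T) {c : G} {l : ℤ → V} {τ : ℤ} (hl : IsLine T l)
    (hτ : 0 < τ) (hs : ∀ i, c • l i = l (i + τ)) {x : V} {i : ℤ}
    (hi : ∀ j, T.dist x (l i) ≤ T.dist x (l j)) :
    τ.natAbs + 2 * T.dist x (l i) ≤ T.dist x (c • x) := by
  rcases Nat.eq_zero_or_pos (T.dist x (l i)) with h0 | h0
  · have hx : x = l i := h.tree.connected.dist_eq_zero_iff.1 h0
    rw [h0, hx, hs, hl]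
    omega
  · have f := four_point h.tree x (l (i + τ)) (c • x) (l i)
    have e1 := hl.dist_of_closest h.tree hi (i + τ)
    have e2 : T.dist (c • x) (l i) = T.dist x (l (i - τ)) := by
      have : l i = c • l (i - τ) := by rw [hs]; congr 1; ring
      rw [this, h.dist_smul]
    have e3 := hl.dist_of_closest h.tree hi (i - τ)
    have e4 : T.dist (l (i + τ)) (l i) = (i + τ - i).natAbs := hl _ _
    have e5 : T.dist (l (i + τ)) (c • x) = T.dist x (l i) := by
      rw [← hs, h.dist_smul, SimpleGraph.dist_comm]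
    rw [e1, e2, e3, e4, e5] at f
    rcases le_max_iff.1 f with f | f <;> omega

/-- The line through a point `y` with `dist y (c² y) = 2 dist y (c y) > 0`. -/
theorem TreeAct.exists_axis_through (h : TreeAct G T) {c : G} {y : V}
    (hpos : 0 < T.dist y (c • y)) (h2 : T.dist y (c • c • y) = 2 * T.dist y (c • y)) :
    ∃ l, IsAxis T c l (T.dist y (c • y)) ∧ l 0 = y := by
  classical
  have hc := h.tree.connected
  obtain ⟨τ, hτ⟩ : ∃ τ : ℕ, T.dist y (c • y) = τ := ⟨_, rfl⟩
  rw [hτ] at hpos
  have hgeo : ∀ k : ℕ, ∃ p, k ≤ τ → T.dist y p = k ∧ T.dist p (c • y) + k = τ := by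
    intro k
    by_cases hk : k ≤ τ
    · obtain ⟨p, hp⟩ := exists_geod hc y τ (c • y) hτ k hk
      exact ⟨p, fun _ => hp⟩
    · exact ⟨y, fun hk' => absurd hk' hk⟩
  choose p hp using hgeo
  have hzp : ∀ {m n : ℤ}, m ≤ n → (T.dist (c ^ m • y) (c ^ n • y) : ℤ) = (n - m) * τ := by
    intro m n hmn
    have := h.dist_zpow (y := y) (by rw [hτ]; exact hpos) h2 hmn
    rw [this, hτ]
  set l : ℤ → V := fun i => c ^ (i / (τ : ℤ)) • p (i % (τ : ℤ)).toNat with hl
  have hτ0 : (0 : ℤ) < τ := by exact_mod_cast hpos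
  have hl0 : l 0 = y := by
    have h0 := (hp 0 (by omega)).1
    simp only [hl]
    rw [Int.zero_ediv, Int.zero_emod, zpow_zero, one_smul]
    exact (hc.dist_eq_zero_iff.1 h0).symm
  have hpos' : ∀ i M : ℤ, -M ≤ i / (τ : ℤ) → i / (τ : ℤ) + 1 ≤ M →
      (T.dist (c ^ (-M) • y) (l i) : ℤ) = i + M * τ ∧
        (T.dist (l i) (c ^ M • y) : ℤ) = M * τ - i := by
    intro i M h1 h2
    set q := i / (τ : ℤ) with hq
    have hr0 : 0 ≤ i % (τ : ℤ) := Int.emod_nonneg _ (by omega)
    have hr1 : i % (τ : ℤ) < τ := Int.emod_lt_of_pos _ hτ0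
    have hdiv : (τ : ℤ) * q + i % (τ : ℤ) = i := Int.mul_ediv_add_emod i τ
    obtain ⟨r, hr⟩ := Int.eq_ofNat_of_zero_le hr0
    have hli : l i = c ^ q • p r := by
      simp only [hl, ← hq]
      rw [hr]
      simp
    have hr' : r ≤ τ := by omega
    have hp1 := (hp r hr').1
    have hp2 := (hp r hr').2
    have A1 : (T.dist (c ^ (-M) • y) (c ^ q • y) : ℤ) = (q - -M) * τ := hzp (by omega)
    have A2 : T.dist (c ^ q • y) (c ^ q • p r) = r := by rw [h.dist_smul, hp1]
    have A3 : T.dist (c ^ q • p r) (c ^ (q + 1) • y) + r = τ := by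
      have : c ^ (q + 1) • y = c ^ q • c • y := by rw [zpow_add_one, mul_smul]
      rw [this, h.dist_smul, hp2]
    have A4 : (T.dist (c ^ (q + 1) • y) (c ^ M • y) : ℤ) = (M - (q + 1)) * τ := hzp (by omega)
    have A5 : (T.dist (c ^ (-M) • y) (c ^ M • y) : ℤ) = (M - -M) * τ := hzp (by omega)
    have t1 : T.dist (c ^ (-M) • y) (c ^ q • p r) ≤ T.dist (c ^ (-M) • y) (c ^ q • y) +
      T.dist (c ^ q • y) (c ^ q • p r) := hc.dist_triangle
    have t2 : T.dist (c ^ q • p r) (c ^ M • y) ≤ T.dist (c ^ q • p r) (c ^ (q + 1) • y) +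
      T.dist (c ^ (q + 1) • y) (c ^ M • y) := hc.dist_triangle
    have t3 : T.dist (c ^ (-M) • y) (c ^ M • y) ≤ T.dist (c ^ (-M) • y) (c ^ q • p r) +
      T.dist (c ^ q • p r) (c ^ M • y) := hc.dist_triangle
    rw [hli]
    have B1 : (q - -M) * (τ : ℤ) = τ * q + M * τ := by ring
    have B2 : (M - (q + 1)) * (τ : ℤ) = M * τ - τ * q - τ := by ring
    have B3 : (M - -M) * (τ : ℤ) = M * τ + M * τ := by ring
    rw [B1] at A1
    rw [B2] at A4
    rw [B3] at A5
    constructor <;> omega
  have hline : IsLine T l := by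
    have key : ∀ i j : ℤ, i ≤ j → T.dist (l i) (l j) = (i - j).natAbs := by
      intro i j hij
      obtain ⟨M, hM1, hM2, hM3, hM4⟩ : ∃ M : ℤ, -M ≤ i / (τ : ℤ) ∧ i / (τ : ℤ) + 1 ≤ M ∧
          -M ≤ j / (τ : ℤ) ∧ j / (τ : ℤ) + 1 ≤ M :=
        ⟨(i / (τ : ℤ)).natAbs + (j / (τ : ℤ)).natAbs + 1, by omega, by omega, by omega, by omega⟩
      obtain ⟨a1, a2⟩ := hpos' i M hM1 hM2
      obtain ⟨b1, b2⟩ := hpos' j M hM3 hM4
      have A5 : (T.dist (c ^ (-M) • y) (c ^ M • y) : ℤ) = (M - -M) * τ := hzp (by omega)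
      have B3 : (M - -M) * (τ : ℤ) = M * τ + M * τ := by ring
      rw [B3] at A5
      have := dist_of_between h.tree (x := c ^ (-M) • y) (y := c ^ M • y) (m := l i) (n := l j)
        (by omega) (by omega) (by omega)
      omega
    intro i j
    rcases le_total i j with hij | hij
    · exact key i j hij
    · rw [SimpleGraph.dist_comm, key j i hij]
      omega
  have hshift : ∀ i, c • l i = l (i + τ) := by
    intro i
    simp only [hl]
    have e1 : (i + (τ : ℤ)) / (τ : ℤ) = i / (τ : ℤ) + 1 := by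
      rw [Int.add_ediv_of_dvd_right (dvd_refl _), Int.ediv_self (by omega)]
    have e2 : (i + (τ : ℤ)) % (τ : ℤ) = i % (τ : ℤ) := by simp
    rw [e1, e2, ← mul_smul, ← zpow_one_add, add_comm 1]
  refine ⟨l, ⟨hline, by rw [hτ]; exact hτ0, fun i => by rw [hτ]; exact hshift i, ?_⟩, hl0⟩
  intro x
  constructor
  · rintro ⟨i, rfl⟩
    rw [hshift, hline, hτ]
    omega
  · intro hx
    obtain ⟨i, hi⟩ := IsLine.exists_closest (T := T) (l := l) x
    have := h.displacement hline hτ0 hshift hi
    rw [hτ] at hx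
    have h0 : T.dist x (l i) = 0 := by omega
    exact ⟨i, (hc.dist_eq_zero_iff.1 h0).symm⟩

/-! ### Medians and the existence of an axis -/

/-- Either the median of `x, c x, c² x` is a point with additive displacement, or the midpoint of
`x, c x` is fixed. -/
theorem TreeAct.median_cases (h : TreeAct G T) {c : G} {x m : V}
    (hm : IsMed T x (c • x) (c • c • x) m) (hc0 : ∀ z : V, c • z ≠ z) :
    0 < T.dist m (c • m) ∧ T.dist m (c • c • m) = 2 * T.dist m (c • m) := by
  have hc := h.tree.connected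
  have hT := h.tree
  obtain ⟨h1, h2, h3⟩ := hm
  have s1 : T.dist (c • x) (c • c • x) = T.dist x (c • x) := h.dist_smul c x (c • x)
  have c1 : T.dist m (c • x) = T.dist (c • x) m := SimpleGraph.dist_comm
  rw [s1] at h2
  -- `d = dist x (c x)`, `o = dist (c x) m`
  set d := T.dist x (c • x) with hd
  set o := T.dist (c • x) m with ho
  have hlt : 2 * o < d := by
    by_contra hcon
    obtain ⟨k, hk⟩ := h.even c x
    rw [← hd] at hk
    obtain ⟨z, hz1, hz2⟩ := exists_geod hc x d (c • x) hd.symm k (by omega)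
    -- `z` and `c z` are both on the geodesic from `c x` to `m`
    apply hc0 z
    obtain ⟨p, hp1, hp2⟩ := exists_geod hc (c • x) o m ho.symm k (by omega)
    have c2 : T.dist z (c • x) = T.dist (c • x) z := SimpleGraph.dist_comm
    have c3 : T.dist x z = T.dist z x := SimpleGraph.dist_comm
    have c4 : T.dist x m = T.dist m x := SimpleGraph.dist_comm
    have c5 : T.dist (c • x) x = d := by rw [SimpleGraph.dist_comm]
    have t1 : T.dist p x ≤ T.dist p m + T.dist m x := hc.dist_triangle
    have t2 : T.dist (c • x) x ≤ T.dist (c • x) p + T.dist p x := hc.dist_triangle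
    have e1 : p = z := tree_point_unique hT (a := c • x) (b := x) (by omega) (by omega) (by omega)
    have t3 : T.dist p (c • c • x) ≤ T.dist p m + T.dist m (c • c • x) := hc.dist_triangle
    have t4 : T.dist (c • x) (c • c • x) ≤ T.dist (c • x) p + T.dist p (c • c • x) :=
      hc.dist_triangle
    have d1 : T.dist (c • x) (c • z) = k := by rw [h.dist_smul, hz1]
    have d2 : T.dist (c • z) (c • c • x) + k = d := by rw [h.dist_smul, hz2]
    have e2 : p = c • z := tree_point_unique hT (a := c • x) (b := c • c • x) (by omega)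
      (by omega) (by omega)
    rw [← e2, e1]
  -- distances of `m`, `c m`, `c² m`
  have a1 : T.dist (c • x) (c • m) = T.dist x m := h.dist_smul c x m
  have a2 : T.dist (c • m) (c • c • x) = o := by
    rw [h.dist_smul, SimpleGraph.dist_comm]
  have a3 : T.dist m (c • m) + o = T.dist x m := by
    have := dist_of_between hT (x := c • x) (y := c • c • x) (m := m) (n := c • m)
      (by omega) (by omega) (by omega)
    omega
  have a4 : T.dist (c • m) (c • c • m) = T.dist m (c • m) := h.dist_smul c m (c • m)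
  have a5 : T.dist (c • c • m) (c • c • c • x) = o := by
    rw [h.dist_smul, h.dist_smul, SimpleGraph.dist_comm]
  have a6 : T.dist (c • m) (c • c • c • x) = T.dist m (c • c • x) := h.dist_smul c m (c • c • x)
  have a7 : T.dist (c • x) (c • c • c • x) = T.dist x (c • c • x) := h.dist_smul c x (c • c • x)
  have t1 : T.dist (c • x) (c • c • c • x) ≤ T.dist (c • x) m + T.dist m (c • c • c • x) :=
    hc.dist_triangle
  have t2 : T.dist m (c • c • c • x) ≤ T.dist m (c • c • m) +
    T.dist (c • c • m) (c • c • c • x) := hc.dist_triangle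
  have t3 : T.dist m (c • c • m) ≤ T.dist m (c • m) + T.dist (c • m) (c • c • m) :=
    hc.dist_triangle
  constructor <;> omega

/-- Serre's lemma: an element without fixed vertex has an axis. -/
theorem TreeAct.exists_axis (h : TreeAct G T) (c : G)
    (hc : ∀ x : V, c • x ≠ x) : ∃ l τ, IsAxis T c l τ := by
  obtain ⟨x⟩ := h.tree.connected.nonempty
  obtain ⟨m, h1, h2, h3⟩ := tree_median h.tree x (c • x) (c • c • x)
  obtain ⟨p1, p2⟩ := h.median_cases ⟨h1, h2, h3⟩ hc
  obtain ⟨l, hl, -⟩ := h.exists_axis_through p1 p2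
  exact ⟨l, _, hl⟩

/-- An element with an axis has no fixed vertex. -/
theorem IsAxis.smul_ne (h : TreeAct G T) {c : G} {l : ℤ → V} {τ : ℤ}
    (hl : IsAxis T c l τ) (x : V) : c • x ≠ x := by
  intro hx
  obtain ⟨i, hi⟩ := IsLine.exists_closest (T := T) (l := l) x
  have := h.displacement hl.line hl.pos hl.shift hi
  rw [hx, SimpleGraph.dist_self] at this
  have := hl.pos
  omega

/-- The minimal displacement is `τ`. -/
theorem IsAxis.le_dist (h : TreeAct G T) {c : G} {l : ℤ → V} {τ : ℤ}
    (hl : IsAxis T c l τ) (x : V) : τ.natAbs ≤ T.dist x (c • x) := by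
  obtain ⟨i, hi⟩ := IsLine.exists_closest (T := T) (l := l) x
  have := h.displacement hl.line hl.pos hl.shift hi
  omega

/-- A point with additive displacement lies on the axis. -/
theorem IsAxis.mem_of_add (h : TreeAct G T) {c : G} {l : ℤ → V} {τ : ℤ}
    (hl : IsAxis T c l τ) {y : V} (hpos : 0 < T.dist y (c • y))
    (h2 : T.dist y (c • c • y) = 2 * T.dist y (c • y)) : ∃ i, l i = y := by
  obtain ⟨l', hl', h0⟩ := h.exists_axis_through hpos h2
  have e1 := hl'.le_dist h (l 0)
  rw [(hl.mem_iff (l 0)).1 ⟨0, rfl⟩] at e1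
  have e2 := hl.le_dist h y
  refine (hl.mem_iff y).2 ?_
  have := hl.pos
  omega

/-- The axis contains the medians. -/
theorem IsAxis.med_mem (h : TreeAct G T) {c : G} {l : ℤ → V} {τ : ℤ}
    (hl : IsAxis T c l τ) {x m : V} (hm : IsMed T x (c • x) (c • c • x) m) : ∃ i, l i = m := by
  obtain ⟨p1, p2⟩ := h.median_cases hm (hl.smul_ne h)
  exact hl.mem_of_add h p1 p2

/-- Elements which commute with `c` translate the axis of `c`. -/
theorem IsAxis.exists_shift (h : TreeAct G T) {c : G} {l : ℤ → V} {τ : ℤ}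
    (hl : IsAxis T c l τ) {g : G} (hg : g * c = c * g) : ∃ s : ℤ, ∀ i, g • l i = l (i + s) := by
  have key : ∀ i, ∃ j, l j = g • l i := by
    intro i
    refine (hl.mem_iff _).2 ?_
    rw [← mul_smul, ← hg, mul_smul, h.dist_smul]
    exact (hl.mem_iff _).1 ⟨i, rfl⟩
  choose σ hσ using key
  have hdist : ∀ i j, (σ i - σ j).natAbs = (i - j).natAbs := by
    intro i j
    rw [← hl.line, hσ, hσ, h.dist_smul, hl.line]
  have hτ : σ τ = σ 0 + τ := by
    apply hl.line.injective
    rw [← hl.shift, hσ, hσ, ← mul_smul, ← hg, mul_smul, hl.shift, zero_add]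
  have hpos := hl.pos
  refine ⟨σ 0, fun i => ?_⟩
  rw [← hσ]
  congr 1
  have e1 := hdist i 0
  have e2 := hdist i τ
  rw [hτ] at e2
  omega

/-- An element with an axis has infinite order. -/
theorem IsAxis.pow_ne (h : TreeAct G T) {c : G} {l : ℤ → V} {τ : ℤ} (hl : IsAxis T c l τ) {n : ℕ}
    (hn : n ≠ 0) (x : V) : c ^ n • x ≠ x := by
  have hs : ∀ (n : ℕ) i, c ^ n • l i = l (i + n * τ) := by
    intro n
    induction n with
    | zero => simp
    | succ n ih =>
      intro i
      rw [pow_succ', mul_smul, ih, hl.shift]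
      congr 1
      push_cast
      ring
  intro hx
  obtain ⟨i, hi⟩ := IsLine.exists_closest (T := T) (l := l) x
  have hpos : 0 < (n : ℤ) * τ := by
    have := hl.pos
    positivity
  have := h.displacement (c := c ^ n) hl.line hpos (hs n) hi
  rw [hx, SimpleGraph.dist_self] at this
  omega

/-- Two axes of the same element are the same up to a shift. -/
theorem IsAxis.unique {c : G} {l l' : ℤ → V} {τ τ' : ℤ}
    (hl : IsAxis T c l τ) (hl' : IsAxis T c l' τ') (h : TreeAct G T) :
    τ = τ' ∧ ∃ s : ℤ, ∀ i, l' i = l (i + s) := by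
  have e1 := hl.le_dist h (l' 0)
  rw [(hl'.mem_iff (l' 0)).1 ⟨0, rfl⟩] at e1
  have e2 := hl'.le_dist h (l 0)
  rw [(hl.mem_iff (l 0)).1 ⟨0, rfl⟩] at e2
  have hp := hl.pos
  have hp' := hl'.pos
  have hττ : τ = τ' := by omega
  subst hττ
  refine ⟨rfl, ?_⟩
  have key : ∀ i, ∃ j, l j = l' i := fun i => (hl.mem_iff _).2 ((hl'.mem_iff _).1 ⟨i, rfl⟩)
  choose σ hσ using key
  have hdist : ∀ i j, (σ i - σ j).natAbs = (i - j).natAbs := by
    intro i j
    rw [← hl.line, hσ, hσ, hl'.line]
  have hτ : σ τ = σ 0 + τ := by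
    apply hl.line.injective
    rw [← hl.shift, hσ, hσ, hl'.shift, zero_add]
  refine ⟨σ 0, fun i => ?_⟩
  rw [← hσ]
  congr 1
  have e1 := hdist i 0
  have e2 := hdist i τ
  rw [hτ] at e2
  omega

end Pool.Agent.P140
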